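import Mathlib
import Pool.Agent.Lib.helper12.AltB

set_option autoImplicit false
open Filter Topology

namespace Pool.Agent.Results.MP_092669_al.Full

/-- `g` fixes the root and maps the children of each vertex `v` to the children of `g v` by an
even permutation: `g` lies in the infinite iterated wreath product `W` of `A₅`. -/
def InW (g : Equiv.Perm (List (Fin 5))) : Prop :=
  g [] = [] ∧ ∀ v : List (Fin 5),
    ∃ σ ∈ alternatingGroup (Fin 5), ∀ i : Fin 5, g (v ++ [i]) = g v ++ [σ i]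

/-- The same condition at the vertices of depth `< n` only. -/
def InWn (n : ℕ) (g : Equiv.Perm (List (Fin 5))) : Prop :=
  g [] = [] ∧ ∀ v : List (Fin 5), v.length < n →
    ∃ σ ∈ alternatingGroup (Fin 5), ∀ i : Fin 5, g (v ++ [i]) = g v ++ [σ i]

/-- Number of elements of word length at most `r` with respect to `S ∪ S⁻¹`. -/
noncomputable def growth (S : Finset (Equiv.Perm (List (Fin 5)))) (r : ℕ) : ℕ :=
  Set.ncard {g : Equiv.Perm (List (Fin 5)) | ∃ l : List (Equiv.Perm (List (Fin 5))),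
    l.length ≤ r ∧ (∀ x ∈ l, x ∈ S ∨ x⁻¹ ∈ S) ∧ l.prod = g}

theorem result : ∃ (Γ : Subgroup (Equiv.Perm (List (Fin 5))))
    (S : Finset (Equiv.Perm (List (Fin 5)))),
    Subgroup.closure (S : Set (Equiv.Perm (List (Fin 5)))) = Γ ∧
    (∀ g ∈ Γ, InW g) ∧
    (∀ (n : ℕ) (w : Equiv.Perm (List (Fin 5))), InWn n w →
      ∃ g ∈ Γ, ∀ v : List (Fin 5), v.length = n → g v = w v) ∧
    Tendsto (fun r : ℕ => (growth S r : ℝ) ^ ((1 : ℝ) / (r : ℝ))) atTop (𝓝 1) :=
  ⟨Pool.Agent.Lib.helper12.Alt.G, Pool.Agent.Lib.helper12.Alt.S, rfl,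
    fun _ hg => Pool.Agent.Lib.helper12.Alt.G_W hg, Pool.Agent.Lib.helper12.Alt.dense,
    Pool.Agent.Lib.helper12.Alt.subexp⟩

end Pool.Agent.Results.MP_092669_al.Full
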